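import Pool.Agent.Helper14.LD4.PCA0
import Pool.Agent.Helper17.LD4.Sys

/-!
# Project LD4, block PC, part A: all the correlations with the test functions
-/

set_option autoImplicit false

namespace Pool.Agent.Helper14.LD4

open Set MeasureTheory Filter Topology
open Pool.Agent.Helper41.LD (av var haar DiscLe Dioph Kk)
open Pool.Agent.Helper41.LD2 (EqA)
open Pool.Agent.Helper41.LD3 (Cst Us tm fr lamG)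
open Pool.Agent.Helper41.LD4
open Pool.Agent.Helper17.LD4 (sys_all)

variable {τ : ℕ → ℝ} {ty : ℕ → ℕ × ℕ × ℕ} {g Q R CF DF Cb m Cq G K : ℕ}

theorem corr_all (H : Cst4 τ ty g Q R CF DF Cb m Cq G) (hK : 1 ≤ K) {c : ℝ → ℝ} (hc : ∀ y, RatPow y → c y = 0) {Q₀ : ℕ} {ε ℓ : ℝ}
    (hε0 : 0 ≤ ε) (hε : ε ≤ (1 / 2) ^ (12 * K)) (hℓ : 0 < ℓ) (a : ℝ) {s s' : ℕ} (hs : s < g * Q) (hs' : s' < g * Q)
    {q q' : ℕ × ℕ × ℕ × ℕ} (hq : q ∈ sysI (ty (s / Q)).2.1 K) (hq' : q' ∈ sysI (ty (s' / Q)).2.1 K) {v u : ℕ} (hv : v % Q = s % Q)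
    (hu : u % Q = s' % Q) (hu1 : ((Q₀ : ℝ) + 1) * 2 ^ ((24 + 12 * Cq) * K) ≤ τ (s' / Q) ^ u * ℓ)
    (hnear : ¬ (s / Q = s' / Q ∧ v ≡ u [MOD (ty (s' / Q)).1]) → (1 / 2 : ℝ) ^ (12 * K) < τ (s / Q) ^ v / τ (s' / Q) ^ u →
      τ (s / Q) ^ v / τ (s' / Q) ^ u < 2 ^ (12 * K) → (τ (s / Q) ^ v ≤ τ (s' / Q) ^ u ∧ EqA (τ (s' / Q) ^ u / τ (s / Q) ^ v) Q₀ ε) ∨
        (τ (s' / Q) ^ u ≤ τ (s / Q) ^ v ∧ EqA (τ (s / Q) ^ v / τ (s' / Q) ^ u) Q₀ ε)) :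
    |av (fun x => sysf (ty (s / Q)).2.1 q (τ (s / Q) ^ v * x + c (τ (s / Q) ^ v)) *
        sysf (ty (s' / Q)).2.1 q' (τ (s' / Q) ^ u * x + c (τ (s' / Q) ^ u))) a ℓ -
      (if s = s' ∧ v = u ∧ q = q' then sysv (ty (s / Q)).2.1 q else 0)| ≤ 3 * (m : ℝ) ^ 2 * (1 / 2) ^ (12 * K) :=
  corr_all_of (fun hp hK => sys_all hp hK) H hK hc hε0 hε hℓ a hs hs' hq hq' hv hu hu1 hnear

end Pool.Agent.Helper14.LD4
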