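import Pool.Agent.Helper41.LD4.Cst
import Pool.Agent.Helper5.LD4.L12
import Pool.Agent.Helper94.LD4.L34
import Pool.Agent.Helper47.LD4.L5q
import Pool.Agent.Helper81.LD4.SYb2

/-!
# Project LD4, block PC, part A: all the correlations with the test functions (from `sys_all` as a hypothesis)
-/

set_option autoImplicit false

namespace Pool.Agent.Helper14.LD4

open Set MeasureTheory Filter Topology
open Pool.Agent.Helper41.LD (av var haar DiscLe Dioph Kk)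
open Pool.Agent.Helper41.LD2 (EqA)
open Pool.Agent.Helper41.LD3 (Cst Us tm fr lamG)
open Pool.Agent.Helper41.LD4
open Pool.Agent.Helper5.LD4 (corr_far)
open Pool.Agent.Helper94.LD4 (corr_near corr_same)
open Pool.Agent.Helper47.LD4 (corr_rat)
open Pool.Agent.Helper81.LD4 (fb_ker)

section

variable {N₀ N₀' m₁ m₂ m K : ℕ} {w w' : ℝ} {f f' : ℝ → ℝ}

/-- two frequencies far apart -/
theorem far_gen (hm : 1 ≤ m) (hf : Fn N₀ m₁ w f) (hf' : Fn N₀' m₂ w' f') (hm₁ : m₁ ≤ m) (hw'0 : 0 ≤ w') (hw' : w' ≤ m) {S T ℓ : ℝ} (hS : 0 < S)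
    (hT : 0 < T) (hℓ : 0 < ℓ) (hST : S ≤ (1 / 2) ^ (12 * K) * T) (hTℓ : (2 : ℝ) ^ (12 * K) ≤ T * ℓ) (d d' a : ℝ) :
    |av (fun x => f (S * x + d) * f' (T * x + d')) a ℓ| ≤ 3 * (m : ℝ) ^ 2 * (1 / 2) ^ (12 * K) := by
  refine (corr_far (d := d) (d' := d') (a := a) hf hf' hS hT hℓ).trans ?_
  have hTp : 0 < T * ℓ := mul_pos hT hℓ
  have hm1 : (m₁ : ℝ) ≤ m := by exact_mod_cast hm₁
  have hm0 : (1 : ℝ) ≤ m := by exact_mod_cast hm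
  have hwZ : (1 / 2 : ℝ) ^ (12 * K) * 2 ^ (12 * K) = 1 := by rw [← mul_pow]; norm_num
  set W : ℝ := (1 / 2) ^ (12 * K) with hW
  have hW0 : 0 < W := by positivity
  rw [div_le_iff₀ hTp]
  have h1 : (m₁ : ℝ) * w' ≤ (m : ℝ) ^ 2 := by
    rw [sq]
    exact mul_le_mul hm1 hw' hw'0 (by positivity)
  have h2 : S * ℓ + 2 ≤ 3 * W * (T * ℓ) := by
    have h3 : S * ℓ ≤ W * T * ℓ := mul_le_mul_of_nonneg_right hST hℓ.le
    have h4 : W * 2 ^ (12 * K) ≤ W * (T * ℓ) := mul_le_mul_of_nonneg_left hTℓ hW0.le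
    rw [hwZ] at h4
    nlinarith
  calc (m₁ : ℝ) * w' * (S * ℓ + 2) ≤ (m : ℝ) ^ 2 * (3 * W * (T * ℓ)) :=
        mul_le_mul h1 h2 (by positivity) (by positivity)
    _ = _ := by ring

/-- near frequencies with equidistributed quotient -/
theorem near_gen (hm : 1 ≤ m) (hf : Fn N₀ m₁ w f) (hf' : Fn N₀' m₂ w' f') (hm₂ : m₂ ≤ m) {Q₀ : ℕ} {ε : ℝ} (hε0 : 0 ≤ ε) (hε : ε ≤ (1 / 2) ^ (12 * K))
    {S T ℓ : ℝ} (hS : 0 < S) (hT : 0 < T) (hℓ : 0 < ℓ) (hE : EqA (T / S) Q₀ ε) (hSℓ : ((Q₀ : ℝ) + 1) * 2 ^ (12 * K) ≤ S * ℓ) (d d' a : ℝ) :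
    |av (fun x => f (S * x + d) * f' (T * x + d')) a ℓ| ≤ 3 * (m : ℝ) ^ 2 * (1 / 2) ^ (12 * K) := by
  have hSp : 0 < S * ℓ := mul_pos hS hℓ
  have hm2 : (m₂ : ℝ) ≤ m := by exact_mod_cast hm₂
  have hm0 : (1 : ℝ) ≤ m := by exact_mod_cast hm
  have hwZ : (1 / 2 : ℝ) ^ (12 * K) * 2 ^ (12 * K) = 1 := by rw [← mul_pow]; norm_num
  have hQ : (0 : ℝ) ≤ Q₀ := Nat.cast_nonneg _
  have hZ1 : (1 : ℝ) ≤ 2 ^ (12 * K) := one_le_pow₀ (by norm_num)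
  have h1 : (Q₀ : ℝ) + 1 ≤ S * ℓ := by nlinarith
  refine (corr_near (d := d) (d' := d') (a := a) hf hf' hS hT hℓ hE hε0 h1).trans ?_
  set W : ℝ := (1 / 2) ^ (12 * K) with hW
  have hW0 : 0 < W := by positivity
  have h2 : 1 / (S * ℓ) ≤ W := by
    rw [div_le_iff₀ hSp]
    have h3 : (2 : ℝ) ^ (12 * K) ≤ S * ℓ := by nlinarith
    have h4 : W * 2 ^ (12 * K) ≤ W * (S * ℓ) := mul_le_mul_of_nonneg_left h3 hW0.le
    linarith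
  have h3 : (m₂ : ℝ) * ε ≤ m * W := mul_le_mul hm2 hε hε0 (by positivity)
  have h4 : (m : ℝ) * W + W ≤ 3 * (m : ℝ) ^ 2 * W := by
    have h5 : (m : ℝ) + 1 ≤ 3 * (m : ℝ) ^ 2 := by nlinarith
    calc (m : ℝ) * W + W = ((m : ℝ) + 1) * W := by ring
      _ ≤ _ := mul_le_mul_of_nonneg_right h5 hW0.le
  linarith

/-- the same rational base -/
theorem rat_gen (hm : 1 ≤ m) (hf : Fn N₀ m₁ w f) (hf' : Fn N₀' m₂ w' f') {b q Cq : ℕ} (hq : 1 ≤ q) (hqb : q < b) (hco : Nat.Coprime b q)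
    (hCq : (q : ℝ) ≤ ((b : ℝ) / q) ^ Cq) (hker : ∀ x : ℝ, ∑ j ∈ Finset.range b, f (x + j / b) = 0) {d : ℕ} (hd : 1 ≤ d) {S T ℓ : ℝ}
    (hS : 0 < S) (hT : T = S * ((b : ℝ) / q) ^ d) (hTS : T / S < 2 ^ (12 * K)) (hℓ : 0 < ℓ) (hSℓ : (2 : ℝ) ^ ((12 + 12 * Cq) * K) ≤ S * ℓ) (a : ℝ) :
    |av (fun x => f (S * x) * f' (T * x)) a ℓ| ≤ 3 * (m : ℝ) ^ 2 * (1 / 2) ^ (12 * K) := by
  refine (corr_rat (a := a) hq hqb hco hf hf' hker hd hS hT hℓ).trans ?_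
  have hSp : 0 < S * ℓ := mul_pos hS hℓ
  have hq0 : (0 : ℝ) < q := by exact_mod_cast hq
  have hb0 : (0 : ℝ) < b := by exact_mod_cast (by omega : 0 < b)
  have hm0 : (1 : ℝ) ≤ m := by exact_mod_cast hm
  have hwZ : (1 / 2 : ℝ) ^ (12 * K) * 2 ^ (12 * K) = 1 := by rw [← mul_pow]; norm_num
  have h1 : T / S = ((b : ℝ) / q) ^ d := by
    rw [hT, mul_div_cancel_left₀ _ hS.ne']
  have h2 : (q : ℝ) ^ d ≤ 2 ^ (12 * Cq * K) := by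
    calc (q : ℝ) ^ d ≤ (((b : ℝ) / q) ^ Cq) ^ d := pow_le_pow_left₀ hq0.le hCq d
      _ = (((b : ℝ) / q) ^ d) ^ Cq := by rw [← pow_mul, ← pow_mul, mul_comm]
      _ = (T / S) ^ Cq := by rw [h1]
      _ ≤ ((2 : ℝ) ^ (12 * K)) ^ Cq := pow_le_pow_left₀ (by rw [h1]; positivity) hTS.le Cq
      _ = 2 ^ (12 * Cq * K) := by rw [← pow_mul]; congr 1; ring
  rw [div_le_iff₀ hSp]
  set W : ℝ := (1 / 2) ^ (12 * K) with hW
  have hW0 : 0 < W := by positivity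
  have h3 : (2 : ℝ) ^ ((12 + 12 * Cq) * K) = 2 ^ (12 * K) * 2 ^ (12 * Cq * K) := by rw [← pow_add]; congr 1; ring
  have h4 : W * (2 ^ (12 * K) * 2 ^ (12 * Cq * K)) ≤ W * (S * ℓ) := by
    rw [← h3]
    exact mul_le_mul_of_nonneg_left hSℓ hW0.le
  rw [← mul_assoc, hwZ, one_mul] at h4
  have h5 : W * (S * ℓ) ≤ 3 * (m : ℝ) ^ 2 * W * (S * ℓ) := by
    have h6 : (1 : ℝ) ≤ 3 * (m : ℝ) ^ 2 := by nlinarith
    have h7 : 0 < W * (S * ℓ) := by positivity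
    nlinarith
  linarith

end

variable {τ : ℕ → ℝ} {ty : ℕ → ℕ × ℕ × ℕ} {g Q R CF DF Cb m Cq G K : ℕ}

theorem ty_cases (H : Cst4 τ ty g Q R CF DF Cb m Cq G) {h : ℕ} (hh : h < g) : (ty h).2.1 = 0 ∨ 2 ≤ (ty h).2.1 := by
  rcases H.hty h hh with h1 | h1
  · exact Or.inl h1.2
  · right
    have := h1.hq
    have := h1.hpq
    omega

theorem ratPow_pow {t : ℝ} {r p q : ℕ} (h : RatGen t r p q) (v : ℕ) : RatPow (t ^ v) := by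
  refine ⟨r, h.hr, ((p : ℚ) / q) ^ v, ?_⟩
  rw [← pow_mul, mul_comm, pow_mul, h.pow]
  push_cast
  rfl

theorem ker_of {b : ℕ} (hb : 2 ≤ b) {q : ℕ × ℕ × ℕ × ℕ} (hq : q ∈ sysI b K) (x : ℝ) : ∑ j ∈ Finset.range b, sysf b q (x + j / b) = 0 := by
  have h1 : b ≠ 0 := by omega
  unfold sysI at hq
  rw [if_neg h1] at hq
  unfold sysf
  rw [if_neg h1]
  simp only [Ib, Finset.mem_filter, Finset.mem_product, Finset.mem_range] at hq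
  exact fb_ker hb hq.2.1 hq.1.1 x

theorem div_mod_inj {s s' Q : ℕ} (h1 : s / Q = s' / Q) (h2 : s % Q = s' % Q) : s = s' := by
  rw [← Nat.div_add_mod s Q, ← Nat.div_add_mod s' Q, h1, h2]

theorem corr_all_of (sys_all : ∀ {p K : ℕ}, p = 0 ∨ 2 ≤ p → 1 ≤ K → Sys (sysI p K) (sysf p) (sysv p) (syslev p K) K (sysN p K) (sysm p))
    (H : Cst4 τ ty g Q R CF DF Cb m Cq G) (hK : 1 ≤ K) {c : ℝ → ℝ} (hc : ∀ y, RatPow y → c y = 0) {Q₀ : ℕ} {ε ℓ : ℝ}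
    (hε0 : 0 ≤ ε) (hε : ε ≤ (1 / 2) ^ (12 * K)) (hℓ : 0 < ℓ) (a : ℝ) {s s' : ℕ} (hs : s < g * Q) (hs' : s' < g * Q)
    {q q' : ℕ × ℕ × ℕ × ℕ} (hq : q ∈ sysI (ty (s / Q)).2.1 K) (hq' : q' ∈ sysI (ty (s' / Q)).2.1 K) {v u : ℕ} (hv : v % Q = s % Q)
    (hu : u % Q = s' % Q) (hu1 : ((Q₀ : ℝ) + 1) * 2 ^ ((24 + 12 * Cq) * K) ≤ τ (s' / Q) ^ u * ℓ)
    (hnear : ¬ (s / Q = s' / Q ∧ v ≡ u [MOD (ty (s' / Q)).1]) → (1 / 2 : ℝ) ^ (12 * K) < τ (s / Q) ^ v / τ (s' / Q) ^ u →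
      τ (s / Q) ^ v / τ (s' / Q) ^ u < 2 ^ (12 * K) → (τ (s / Q) ^ v ≤ τ (s' / Q) ^ u ∧ EqA (τ (s' / Q) ^ u / τ (s / Q) ^ v) Q₀ ε) ∨
        (τ (s' / Q) ^ u ≤ τ (s / Q) ^ v ∧ EqA (τ (s / Q) ^ v / τ (s' / Q) ^ u) Q₀ ε)) :
    |av (fun x => sysf (ty (s / Q)).2.1 q (τ (s / Q) ^ v * x + c (τ (s / Q) ^ v)) *
        sysf (ty (s' / Q)).2.1 q' (τ (s' / Q) ^ u * x + c (τ (s' / Q) ^ u))) a ℓ -
      (if s = s' ∧ v = u ∧ q = q' then sysv (ty (s / Q)).2.1 q else 0)| ≤ 3 * (m : ℝ) ^ 2 * (1 / 2) ^ (12 * K) := by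
  have hm := H.m1
  have hm0 : (1 : ℝ) ≤ m := by exact_mod_cast hm
  have hh := Cst.idx_lt hs
  have hh' := Cst.idx_lt hs'
  have hτ := H.base.hτ _ hh
  have hτ' := H.base.hτ _ hh'
  have Sy := sys_all (ty_cases H hh) hK
  have Sy' := sys_all (ty_cases H hh') hK
  have hf := Sy.fn q hq
  have hf' := Sy'.fn q' hq'
  have hm₁ := H.hm _ hh
  have hm₂ := H.hm _ hh'
  -- the constants
  have hwb : ∀ {h : ℕ} (_ : h < g) {q : ℕ × ℕ × ℕ × ℕ} (_ : q ∈ sysI (ty h).2.1 K),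
      0 ≤ (sysm (ty h).2.1 : ℝ) * sysv (ty h).2.1 q ∧ (sysm (ty h).2.1 : ℝ) * sysv (ty h).2.1 q ≤ m := by
    intro h hh q hq
    have Sy := sys_all (ty_cases H hh) hK
    have h1 := Sy.v_lo q hq
    have h2 := Sy.v_hi q hq
    have h3 : (0 : ℝ) ≤ sysv (ty h).2.1 q := le_trans (by positivity) h1
    have h4 : (sysm (ty h).2.1 : ℝ) ≤ m := by exact_mod_cast H.hm h hh
    refine ⟨mul_nonneg (Nat.cast_nonneg _) h3, ?_⟩
    calc (sysm (ty h).2.1 : ℝ) * sysv (ty h).2.1 q ≤ m * 1 := mul_le_mul h4 h2 h3 (by positivity)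
      _ = m := mul_one _
  obtain ⟨w0, w1⟩ := hwb hh hq
  obtain ⟨w0', w1'⟩ := hwb hh' hq'
  have hS : 0 < τ (s / Q) ^ v := pow_pos (by linarith) _
  have hT : 0 < τ (s' / Q) ^ u := pow_pos (by linarith) _
  have hwZ : (1 / 2 : ℝ) ^ (12 * K) * 2 ^ (12 * K) = 1 := by rw [← mul_pow]; norm_num
  have hZ1 : (1 : ℝ) ≤ 2 ^ (12 * K) := one_le_pow₀ (by norm_num)
  have hQ0 : (0 : ℝ) ≤ Q₀ := Nat.cast_nonneg _
  have hA : (2 : ℝ) ^ ((24 + 12 * Cq) * K) = 2 ^ (12 * K) * 2 ^ ((12 + 12 * Cq) * K) := by rw [← pow_add]; congr 1; ring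
  have hA2 : (2 : ℝ) ^ (12 * K) ≤ 2 ^ ((12 + 12 * Cq) * K) := pow_le_pow_right₀ (by norm_num) (Nat.mul_le_mul_right _ (by omega))
  have hA1 : (1 : ℝ) ≤ 2 ^ ((12 + 12 * Cq) * K) := one_le_pow₀ (by norm_num)
  -- lower bounds for the frequencies
  have hTl : ((Q₀ : ℝ) + 1) * 2 ^ ((12 + 12 * Cq) * K) ≤ τ (s' / Q) ^ u * ℓ := by
    refine le_trans ?_ hu1
    rw [hA]
    have : 0 ≤ ((Q₀ : ℝ) + 1) * 2 ^ ((12 + 12 * Cq) * K) := by positivity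
    nlinarith
  have hTl1 : (2 : ℝ) ^ ((12 + 12 * Cq) * K) ≤ τ (s' / Q) ^ u * ℓ := by
    refine le_trans ?_ hTl
    exact le_mul_of_one_le_left (by positivity) (by linarith)
  have hTl2 : (2 : ℝ) ^ (12 * K) ≤ τ (s' / Q) ^ u * ℓ := hA2.trans hTl1
  have hSl : (1 / 2 : ℝ) ^ (12 * K) < τ (s / Q) ^ v / τ (s' / Q) ^ u → ((Q₀ : ℝ) + 1) * 2 ^ ((12 + 12 * Cq) * K) ≤ τ (s / Q) ^ v * ℓ := by
    intro h1
    rw [lt_div_iff₀ hT] at h1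
    have h2 : (1 / 2 : ℝ) ^ (12 * K) * (((Q₀ : ℝ) + 1) * (2 ^ (12 * K) * 2 ^ ((12 + 12 * Cq) * K))) ≤
        (1 / 2 : ℝ) ^ (12 * K) * (τ (s' / Q) ^ u * ℓ) := by
      rw [← hA]
      exact mul_le_mul_of_nonneg_left hu1 (by positivity)
    have h3 : (1 / 2 : ℝ) ^ (12 * K) * (((Q₀ : ℝ) + 1) * (2 ^ (12 * K) * 2 ^ ((12 + 12 * Cq) * K))) =
        ((1 / 2 : ℝ) ^ (12 * K) * 2 ^ (12 * K)) * (((Q₀ : ℝ) + 1) * 2 ^ ((12 + 12 * Cq) * K)) := by ring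
    rw [h3, hwZ, one_mul] at h2
    have h4 : (1 / 2 : ℝ) ^ (12 * K) * (τ (s' / Q) ^ u * ℓ) ≤ τ (s / Q) ^ v * ℓ := by
      calc (1 / 2 : ℝ) ^ (12 * K) * (τ (s' / Q) ^ u * ℓ) = ((1 / 2 : ℝ) ^ (12 * K) * τ (s' / Q) ^ u) * ℓ := by ring
        _ ≤ _ := mul_le_mul_of_nonneg_right h1.le hℓ.le
    linarith
  have hQA : ((Q₀ : ℝ) + 1) * 2 ^ (12 * K) ≤ ((Q₀ : ℝ) + 1) * 2 ^ ((12 + 12 * Cq) * K) := mul_le_mul_of_nonneg_left hA2 (by linarith)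
  have hcomm : ∀ x : ℝ, sysf (ty (s / Q)).2.1 q (τ (s / Q) ^ v * x + c (τ (s / Q) ^ v)) *
        sysf (ty (s' / Q)).2.1 q' (τ (s' / Q) ^ u * x + c (τ (s' / Q) ^ u)) =
      sysf (ty (s' / Q)).2.1 q' (τ (s' / Q) ^ u * x + c (τ (s' / Q) ^ u)) *
        sysf (ty (s / Q)).2.1 q (τ (s / Q) ^ v * x + c (τ (s / Q) ^ v)) := fun x => mul_comm _ _
  -- far apart
  have hfar1 : τ (s / Q) ^ v / τ (s' / Q) ^ u ≤ (1 / 2 : ℝ) ^ (12 * K) →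
      |av (fun x => sysf (ty (s / Q)).2.1 q (τ (s / Q) ^ v * x + c (τ (s / Q) ^ v)) *
        sysf (ty (s' / Q)).2.1 q' (τ (s' / Q) ^ u * x + c (τ (s' / Q) ^ u))) a ℓ| ≤ 3 * (m : ℝ) ^ 2 * (1 / 2) ^ (12 * K) := by
    intro h1
    rw [div_le_iff₀ hT] at h1
    exact far_gen hm hf hf' hm₁ w0' w1' hS hT hℓ h1 hTl2 _ _ a
  have hfar2 : (2 : ℝ) ^ (12 * K) ≤ τ (s / Q) ^ v / τ (s' / Q) ^ u →
      |av (fun x => sysf (ty (s / Q)).2.1 q (τ (s / Q) ^ v * x + c (τ (s / Q) ^ v)) *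
        sysf (ty (s' / Q)).2.1 q' (τ (s' / Q) ^ u * x + c (τ (s' / Q) ^ u))) a ℓ| ≤ 3 * (m : ℝ) ^ 2 * (1 / 2) ^ (12 * K) := by
    intro h1
    rw [le_div_iff₀ hT] at h1
    have h2 : τ (s' / Q) ^ u ≤ (1 / 2 : ℝ) ^ (12 * K) * τ (s / Q) ^ v := by
      calc τ (s' / Q) ^ u = ((1 / 2 : ℝ) ^ (12 * K) * 2 ^ (12 * K)) * τ (s' / Q) ^ u := by rw [hwZ, one_mul]
        _ = (1 / 2 : ℝ) ^ (12 * K) * (2 ^ (12 * K) * τ (s' / Q) ^ u) := by ring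
        _ ≤ _ := mul_le_mul_of_nonneg_left h1 (by positivity)
    have h3 : (2 : ℝ) ^ (12 * K) ≤ τ (s / Q) ^ v * ℓ := by
      refine hTl2.trans (mul_le_mul_of_nonneg_right ?_ hℓ.le)
      calc τ (s' / Q) ^ u = 1 * τ (s' / Q) ^ u := (one_mul _).symm
        _ ≤ 2 ^ (12 * K) * τ (s' / Q) ^ u := mul_le_mul_of_nonneg_right hZ1 hT.le
        _ ≤ _ := h1
    simp_rw [hcomm]
    exact far_gen hm hf' hf hm₂ w0 w1 hT hS hℓ h2 h3 _ _ a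
  by_cases hB : s / Q = s' / Q ∧ v ≡ u [MOD (ty (s' / Q)).1]
  · obtain ⟨hB1, hB2⟩ := hB
    by_cases hvu : v = u
    · -- the same frequency
      have hss : s = s' := div_mod_inj hB1 (by rw [← hv, ← hu, hvu])
      subst hss
      subst hvu
      have h1 := corr_same (d := c (τ (s / Q) ^ v)) (a := a) hf hf' hS hℓ
      have h2 : ∫ t in (0 : ℝ)..1, sysf (ty (s / Q)).2.1 q t * sysf (ty (s / Q)).2.1 q' t =
          if s = s ∧ v = v ∧ q = q' then sysv (ty (s / Q)).2.1 q else 0 := by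
        by_cases hqq : q = q'
        · subst hqq
          rw [if_pos ⟨rfl, rfl, rfl⟩]
          exact Sy.norm q hq
        · rw [if_neg (fun h => hqq h.2.2)]
          exact Sy.orth q hq q' hq' hqq
      rw [h2] at h1
      refine h1.trans ?_
      have h3 : 0 < τ (s / Q) ^ v * ℓ := mul_pos hS hℓ
      rw [div_le_iff₀ h3]
      have h4 : (1 / 2 : ℝ) ^ (12 * K) * 2 ^ (12 * K) ≤ (1 / 2 : ℝ) ^ (12 * K) * (τ (s / Q) ^ v * ℓ) :=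
        mul_le_mul_of_nonneg_left hTl2 (by positivity)
      rw [hwZ] at h4
      have h5 : (3 : ℝ) ≤ 3 * (m : ℝ) ^ 2 := by nlinarith
      have h6 : 3 * ((1 / 2 : ℝ) ^ (12 * K) * (τ (s / Q) ^ v * ℓ)) ≤ 3 * (m : ℝ) ^ 2 * ((1 / 2 : ℝ) ^ (12 * K) * (τ (s / Q) ^ v * ℓ)) :=
        mul_le_mul_of_nonneg_right h5 (by positivity)
      nlinarith
    · -- the same generator, the same residue
      rw [if_neg (fun h => hvu h.2.1), sub_zero]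
      rcases le_or_gt (τ (s / Q) ^ v / τ (s' / Q) ^ u) ((1 / 2 : ℝ) ^ (12 * K)) with h1 | h1
      · exact hfar1 h1
      rcases le_or_gt ((2 : ℝ) ^ (12 * K)) (τ (s / Q) ^ v / τ (s' / Q) ^ u) with h2 | h2
      · exact hfar2 h2
      have hG : RatGen (τ (s' / Q)) (ty (s' / Q)).1 (ty (s' / Q)).2.1 (ty (s' / Q)).2.2 := by
        rcases H.hty _ hh' with h3 | h3
        · rw [h3.1] at hB2
          exact absurd (Nat.modEq_zero_iff.1 hB2) hvu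
        · exact h3
      have hr0 : (ty (s' / Q)).1 ≠ 0 := by have := hG.hr; omega
      have hCq := H.hCq _ hh' hr0
      have hb2 : 2 ≤ (ty (s' / Q)).2.1 := by have := hG.hq; have := hG.hpq; omega
      have hc1 : c (τ (s / Q) ^ v) = 0 := hc _ (hB1 ▸ ratPow_pow hG v)
      have hc2 : c (τ (s' / Q) ^ u) = 0 := hc _ (ratPow_pow hG u)
      have hk1 := ker_of (K := K) hb2 (q := q) (hB1 ▸ hq)
      have hk2 := ker_of (K := K) hb2 (q := q') hq'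
      simp only [hc1, hc2, add_zero]
      rcases lt_or_gt_of_ne hvu with h3 | h3
      · -- `v < u`
        obtain ⟨d, hd⟩ := (Nat.modEq_iff_dvd' h3.le).1 hB2
        have hd1 : 1 ≤ d := by
          rcases Nat.eq_zero_or_pos d with h4 | h4
          · rw [h4, mul_zero] at hd; omega
          · exact h4
        have hTS : τ (s' / Q) ^ u = τ (s / Q) ^ v * (((ty (s' / Q)).2.1 : ℝ) / (ty (s' / Q)).2.2) ^ d := by
          rw [hB1, ← hG.pow, ← pow_mul, ← pow_add, ← hd]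
          congr 1
          omega
        have h5 : τ (s' / Q) ^ u / τ (s / Q) ^ v < 2 ^ (12 * K) := by
          rw [div_lt_iff₀ hS]
          rw [lt_div_iff₀ hT] at h1
          calc τ (s' / Q) ^ u = ((1 / 2 : ℝ) ^ (12 * K) * 2 ^ (12 * K)) * τ (s' / Q) ^ u := by rw [hwZ, one_mul]
            _ = 2 ^ (12 * K) * ((1 / 2 : ℝ) ^ (12 * K) * τ (s' / Q) ^ u) := by ring
            _ < 2 ^ (12 * K) * τ (s / Q) ^ v := mul_lt_mul_of_pos_left h1 (by positivity)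
        have h6 : (2 : ℝ) ^ ((12 + 12 * Cq) * K) ≤ τ (s / Q) ^ v * ℓ :=
          (le_mul_of_one_le_left (by positivity) (by linarith)).trans (hSl h1)
        have hk : ∀ x : ℝ, ∑ j ∈ Finset.range (ty (s' / Q)).2.1, sysf (ty (s / Q)).2.1 q (x + j / (ty (s' / Q)).2.1) = 0 := by
          rw [hB1]; exact hk1
        exact rat_gen hm hf hf' hG.hq hG.hpq hG.cop hCq hk hd1 hS hTS h5 hℓ h6 a
      · -- `u < v`
        obtain ⟨d, hd⟩ := (Nat.modEq_iff_dvd' h3.le).1 hB2.symm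
        have hd1 : 1 ≤ d := by
          rcases Nat.eq_zero_or_pos d with h4 | h4
          · rw [h4, mul_zero] at hd; omega
          · exact h4
        have hTS : τ (s / Q) ^ v = τ (s' / Q) ^ u * (((ty (s' / Q)).2.1 : ℝ) / (ty (s' / Q)).2.2) ^ d := by
          rw [hB1, ← hG.pow, ← pow_mul, ← pow_add, ← hd]
          congr 1
          omega
        have hcomm2 : ∀ x : ℝ, sysf (ty (s / Q)).2.1 q (τ (s / Q) ^ v * x) * sysf (ty (s' / Q)).2.1 q' (τ (s' / Q) ^ u * x) =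
            sysf (ty (s' / Q)).2.1 q' (τ (s' / Q) ^ u * x) * sysf (ty (s / Q)).2.1 q (τ (s / Q) ^ v * x) := fun x => mul_comm _ _
        simp_rw [hcomm2]
        exact rat_gen hm hf' hf hG.hq hG.hpq hG.cop hCq hk2 hd1 hT hTS h2 hℓ hTl1 a
  · rw [if_neg (fun h => hB ⟨by rw [h.1], by rw [h.2.1]⟩), sub_zero]
    rcases le_or_gt (τ (s / Q) ^ v / τ (s' / Q) ^ u) ((1 / 2 : ℝ) ^ (12 * K)) with h1 | h1
    · exact hfar1 h1
    rcases le_or_gt ((2 : ℝ) ^ (12 * K)) (τ (s / Q) ^ v / τ (s' / Q) ^ u) with h2 | h2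
    · exact hfar2 h2
    rcases hnear hB h1 h2 with ⟨h3, h4⟩ | ⟨h3, h4⟩
    · exact near_gen hm hf hf' hm₂ hε0 hε hS hT hℓ h4 (hQA.trans (hSl h1)) _ _ a
    · simp_rw [hcomm]
      exact near_gen hm hf' hf hm₁ hε0 hε hT hS hℓ h4 (hQA.trans hTl) _ _ a

end Pool.Agent.Helper14.LD4
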